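import Pool.Agent.H441.AC.Four
import Pool.Graph.R_pool_sql_team_seeded_63374d34.Results.MP_6f117a_ag.SmoothHypersurfacesSuffice

/-!
# The algebraic notions of hyperbolicity: systems of diagonal equations suffice

MP_6f117a_ag, Q1, over `L = ℂ`: the four properties (algebraically hyperbolic, bounded, groupless, all
integral closed subvarieties of general type) are equivalent for all smooth projective varieties. We
consider the following two types of systems of equations.

* `Diagonal m D`, where `m ≥ 2` is fixed (for example `m = 2`) and `D` is a symmetric set of complex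
  numbers which contains `1` and generates the vector space `ℂ` over `ℚ` (for example `D = ℂ`, or the
  set of all complex numbers of absolute value `1`): `Y : ∑ j, c_ij y_j ^ m = 0`, `i < k`, with
  coefficients in `D ∪ {0}`;
* `FourTerms`: intersections of diagonal quadrics with at most four terms, of the form
  `y_p ^ 2 + y_q ^ 2 = 2 y_s ^ 2 + 2 y_t ^ 2` or `y_p ^ 2 - y_q ^ 2 = a (y_s ^ 2 - y_t ^ 2)` (here `m = 2`).

**Theorem 1.** Let `X` be any projective variety over `ℂ` in `P^n` (any dimension, any singularities) and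
`Z` a closed subset. There are a system `Y` of the given type in `P^N`, forms `φ_0, …, φ_N` of the same
degree `e`, among them all monomials of this degree, so that `φ : P^n → P^N` is a closed embedding, a
set `J` of indices and a constant `B` such that `X = φ⁻¹(Y)`, `Z = φ⁻¹({y_j = 0, j ∈ J})`, and the following
lie in one of the copies `{(ζ_0 φ_0(x) : … : ζ_N φ_N(x)) : x ∈ X}`, `ζ_j ^ m = 1`, of `X`:

* every morphism from a smooth projective curve of genus `g` to `Y` of degree more than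
  `B max (2 g - 2, 0)`;
* every nonconstant holomorphic map from a complex normed space (in particular from a complex torus)
  to `Y`;
* every integral closed subvariety of `Y` which is not of general type and not a point.

Hence each of the four properties holds for `Y` if and only if it holds for `X`, and it holds for `Y`
outside of the coordinate subspace `{y_j = 0, j ∈ J}` if and only if it holds for `X` outside of `Z`.

Let `𝒳` be the class of all smooth projective varieties over `ℂ`, or any class of projective varieties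
which contains all smooth hypersurfaces in `P^N`, `N ≥ 3`.

**Theorem 2.** Each of the implications between the four properties (so also Q1) holds for all `X ∈ 𝒳`
if and only if it holds for all systems `Y` of the given type.

**Theorem 3.** The same for the implications between the four properties outside of closed subsets:
for all `X ∈ 𝒳` and all closed sets `Z` if and only if for all systems `Y` of the given type and all
coordinate subspaces `Z`.

A projective variety over `ℂ` is groupless if and only if all holomorphic maps from complex tori to it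
are constant; it is bounded if and only if the degrees of the maps from each curve are bounded. These
two (known) characterizations are used as definitions. The constants `α g` in the definition of
algebraic hyperbolicity are replaced by `α max (2 g - 2, 0)`, which is the same (compose a map from an
elliptic curve with the multiplications).

Proof. See `Pool/Agent/H441/UA`, `Pool/Agent/H441/FT`, `Pool/Agent/H441/AC`. The `m`-th powers of the
coordinates of a point of `Y` over a field are the values of a linear functional on the `m`-th powers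
of many linear forms in the monomials. Theorems of Büchi type for meromorphic functions, for
function fields which are not of general type, and (new) for function fields of curves with bounds
for the heights in terms of the genus, show that the functional is the evaluation at a point of the
Veronese image of `X`. The step from projective varieties to smooth hypersurfaces in Theorems 2 and 3
is the library theorem `SmoothHypersurfacesSuffice`.
-/

set_option autoImplicit false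

namespace Pool.Agent.Results.MP_6f117a_ag.DiagonalSystemsSuffice

open MvPolynomial FF
open Pool.Agent.W602.GT (SubVar GeneralType)
open Pool.Agent.W603.LV (canDeg)
open Pool.Agent.W603.PV (pht)

/-- systems of equations in `P^N` -/
abbrev Equations (N k : ℕ) : Type := Fin k → MvPolynomial (Fin (N + 1)) ℂ

/-- the systems of diagonal equations `∑ j, c_j * y_j ^ m = 0` with coefficients in `D ∪ {0}` -/
def Diagonal (m : ℕ) (D : Set ℂ) (N k : ℕ) (Y : Equations N k) : Prop :=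
  ∀ i, ∃ c : Fin (N + 1) → ℂ, (∀ j, c j = 0 ∨ c j ∈ D) ∧ Y i = ∑ j, C (c j) * X j ^ m

/-- the systems of equations `y_p ^ 2 + y_q ^ 2 = 2 y_s ^ 2 + 2 y_t ^ 2` or
`y_p ^ 2 - y_q ^ 2 = a (y_s ^ 2 - y_t ^ 2)` -/
def FourTerms (N k : ℕ) (Y : Equations N k) : Prop :=
  ∀ i, ∃ p q s t : Fin (N + 1), Y i = X p ^ 2 + X q ^ 2 - 2 * (X s ^ 2 + X t ^ 2) ∨
    ∃ a : ℂ, Y i = X p ^ 2 - X q ^ 2 - C a * (X s ^ 2 - X t ^ 2)

/-- `V(S)` is algebraically hyperbolic outside of `V(Z)`: the degree of every morphism from a smooth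
projective curve of genus `g` to `V(S)` whose image is not contained in `V(Z)` is at most
`α max (2 g - 2, 0)` -/
def Algebraic {n : ℕ} (S Z : Set (MvPolynomial (Fin (n + 1)) ℂ)) : Prop :=
  ∃ α : ℕ, ∀ (E : Type) [Field E] [Algebra ℂ E] [IsFF ℂ E] (y : Fin (n + 1) → E), y ≠ 0 →
    (∀ p ∈ S, aeval y p = 0) → (∃ p ∈ Z, aeval y p ≠ 0) → pht ℂ y ≤ α * max (canDeg ℂ E) 0

/-- `V(S)` is bounded outside of `V(Z)`: for every smooth projective curve the degrees of the morphisms
to `V(S)` whose image is not contained in `V(Z)` are bounded -/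
def Bounded {n : ℕ} (S Z : Set (MvPolynomial (Fin (n + 1)) ℂ)) : Prop :=
  ∀ (E : Type) [Field E] [Algebra ℂ E] [IsFF ℂ E], ∃ B : ℤ, ∀ y : Fin (n + 1) → E, y ≠ 0 →
    (∀ p ∈ S, aeval y p = 0) → (∃ p ∈ Z, aeval y p ≠ 0) → pht ℂ y ≤ B

/-- `V(S)` is groupless outside of `V(Z)`: every nonconstant holomorphic map from a complex torus to
`V(S)` has its image in `V(Z)` -/
def Groupless {n : ℕ} (S Z : Set (MvPolynomial (Fin (n + 1)) ℂ)) : Prop :=
  ∀ (g : ℕ) (L : AddSubgroup (Fin g → ℂ)), DiscreteTopology L →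
    Submodule.span ℝ (L : Set (Fin g → ℂ)) = ⊤ → ∀ f : (Fin g → ℂ) → (Fin (n + 1) → ℂ),
      Differentiable ℂ f → (∀ z, f z ≠ 0) → (∀ z, ∀ p ∈ S, eval (f z) p = 0) →
      (∀ z, ∀ l ∈ L, ∃ c : ℂ, f (z + l) = c • f z) → (∃ z w, ∀ b : ℂ, f w ≠ b • f z) →
        ∀ z, ∀ p ∈ Z, eval (f z) p = 0

/-- `V(S)` is hyperbolic outside of `V(Z)`: the integral closed subvarieties of `V(S)` of positive
dimension which are not contained in `V(Z)` are of general type -/
def Hyperbolic {n : ℕ} (S Z : Set (MvPolynomial (Fin (n + 1)) ℂ)) : Prop :=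
  ∀ (L : Type) [Field L] [Algebra ℂ L] (w : ℕ) (y : Fin (n + 1) → L), 1 ≤ w →
    SubVar (fun p : S => (p : MvPolynomial (Fin (n + 1)) ℂ)) L w y →
    (∃ p ∈ Z, aeval y p ≠ 0) → GeneralType ℂ L w

/-- the four properties of `V(S)` outside of `V(Z)` -/
def NotionOutside {n : ℕ} (S Z : Set (MvPolynomial (Fin (n + 1)) ℂ)) : Fin 4 → Prop :=
  ![Algebraic S Z, Bounded S Z, Groupless S Z, Hyperbolic S Z]

/-- the four properties of `V(S)` -/
def Notion {n : ℕ} (S : Set (MvPolynomial (Fin (n + 1)) ℂ)) : Fin 4 → Prop := NotionOutside S {1}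

/-- the partial derivatives have no common zeros in `P^N` -/
def Smooth {N : ℕ} (A : MvPolynomial (Fin (N + 1)) ℂ) : Prop :=
  ∀ y : Fin (N + 1) → ℂ, y ≠ 0 → ∃ j, eval y (pderiv j A) ≠ 0

/-- a class of projective varieties which contains all smooth hypersurfaces in `P^N`, `N ≥ 3` (for
example all projective manifolds, all smooth hypersurfaces, or all projective varieties) -/
structure ContainsHypersurfaces (𝒳 : ∀ n : ℕ, Set (MvPolynomial (Fin (n + 1)) ℂ) → Prop) :
    Prop where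
  forms : ∀ (n : ℕ) (S : Set (MvPolynomial (Fin (n + 1)) ℂ)), 𝒳 n S →
    ∀ p ∈ S, ∃ e, p.IsHomogeneous e
  hypersurfaces : ∀ (N e : ℕ) (A : MvPolynomial (Fin (N + 1)) ℂ), 3 ≤ N → A.IsHomogeneous e →
    Smooth A → 𝒳 N {A}

/-- the vectors of homogeneous coordinates of a nonconstant holomorphic map from the complex normed
space `E` to `V(S)` with periods in `L` -/
structure NonconstantMap (E : Type) [NormedAddCommGroup E] [NormedSpace ℂ E] (L : Set E) {n : ℕ}
    (S : Set (MvPolynomial (Fin (n + 1)) ℂ)) (f : E → Fin (n + 1) → ℂ) : Prop where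
  diff : Differentiable ℂ f
  ne : ∀ z, f z ≠ 0
  mem : ∀ z, ∀ p ∈ S, eval (f z) p = 0
  per : ∀ z, ∀ l ∈ L, ∃ b : ℂ, f (z + l) = b • f z
  nonconst : ∃ z w, ∀ b : ℂ, f w ≠ b • f z

/-- `φ` embeds `V(S)` in `V(Y)`, `V(Z)` is the inverse image of `y_j = 0`, `j ∈ J`; all morphisms from
curves of large degree to `V(Y)`, all nonconstant holomorphic maps from complex normed spaces to
`V(Y)` and all closed subvarieties of `V(Y)` of positive dimension which are not of general type come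
from `V(S)`. -/
structure Embeds (m : ℕ) {n N k : ℕ} (S Z : Set (MvPolynomial (Fin (n + 1)) ℂ))
    (φ : Fin (N + 1) → MvPolynomial (Fin (n + 1)) ℂ) (Y : Equations N k)
    (J : Set (Fin (N + 1))) : Prop where
  mono : ∃ e, 1 ≤ e ∧ (∀ j, (φ j).IsHomogeneous e) ∧
    ∀ α : Fin (n + 1) → ℕ, ∑ i, α i = e → ∃ j, φ j = ∏ i, X i ^ α i
  points : ∀ x : Fin (n + 1) → ℂ, x ≠ 0 →
    ((∀ p ∈ S, eval x p = 0) ↔ ∀ i, eval (fun j => eval x (φ j)) (Y i) = 0)
  subset : ∀ x : Fin (n + 1) → ℂ, x ≠ 0 →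
    ((∀ p ∈ Z, eval x p = 0) ↔ ∀ j ∈ J, eval x (φ j) = 0)
  curves : ∃ B : ℕ, ∀ (E : Type) [Field E] [Algebra ℂ E] [IsFF ℂ E] (y : Fin (N + 1) → E), y ≠ 0 →
    (∀ i, aeval y (Y i) = 0) → pht ℂ y ≤ B * max (canDeg ℂ E) 0 ∨
      ∃ (ζ : Fin (N + 1) → ℂ) (x : Fin (n + 1) → E) (s : E), (∀ j, ζ j ^ m = 1) ∧ s ≠ 0 ∧
        x ≠ 0 ∧ (∀ p ∈ S, aeval x p = 0) ∧ ∀ j, y j = s * (algebraMap ℂ E (ζ j) * aeval x (φ j))
  curveCopies : ∃ e : ℕ, 1 ≤ e ∧ ∀ (E : Type) [Field E] [Algebra ℂ E] [IsFF ℂ E]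
    (ζ : Fin (N + 1) → ℂ) (x : Fin (n + 1) → E) (s : E) (y : Fin (N + 1) → E),
    (∀ j, ζ j ^ m = 1) → s ≠ 0 → x ≠ 0 → (∀ p ∈ S, aeval x p = 0) →
    (∀ j, y j = s * (algebraMap ℂ E (ζ j) * aeval x (φ j))) →
    y ≠ 0 ∧ (∀ i, aeval y (Y i) = 0) ∧ pht ℂ y = e * pht ℂ x ∧
      ((∃ j ∈ J, y j ≠ 0) ↔ ∃ p ∈ Z, aeval x p ≠ 0)
  maps : ∀ (E : Type) [NormedAddCommGroup E] [NormedSpace ℂ E] (L : Set E)
    (f : E → Fin (N + 1) → ℂ), NonconstantMap E L (Set.range Y) f →
    ∃ (ζ : Fin (N + 1) → ℂ) (x : E → Fin (n + 1) → ℂ), (∀ j, ζ j ^ m = 1) ∧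
      NonconstantMap E L S x ∧ ∀ z j, f z j = ζ j * eval (x z) (φ j)
  sub : ∀ (L : Type) [Field L] [Algebra ℂ L] (w : ℕ) (y : Fin (N + 1) → L), 1 ≤ w →
    SubVar Y L w y → GeneralType ℂ L w ∨
      ∃ (ζ : Fin (N + 1) → ℂ) (x : Fin (n + 1) → L) (s : L), (∀ j, ζ j ^ m = 1) ∧ s ≠ 0 ∧
        SubVar (fun p : S => (p : MvPolynomial (Fin (n + 1)) ℂ)) L w x ∧
        ∀ j, y j = s * (algebraMap ℂ L (ζ j) * aeval x (φ j))

/-- the three theorems for the class `𝒴` of systems -/
structure Suffices (m : ℕ) (𝒴 : ∀ N k : ℕ, Equations N k → Prop) : Prop where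
  theorem1 : ∀ (n : ℕ) (S Z : Set (MvPolynomial (Fin (n + 1)) ℂ)),
    (∀ p ∈ S, ∃ e, p.IsHomogeneous e) → (∀ p ∈ Z, ∃ e, p.IsHomogeneous e) →
    ∃ (N k : ℕ) (Y : Equations N k) (φ : Fin (N + 1) → MvPolynomial (Fin (n + 1)) ℂ)
      (J : Set (Fin (N + 1))), 𝒴 N k Y ∧ Embeds m S Z φ Y J ∧
      (∀ i, Notion (Set.range Y) i ↔ Notion S i) ∧
      ∀ i, NotionOutside (Set.range Y) (X '' J) i ↔ NotionOutside S Z i
  theorem2 : ∀ 𝒳 : ∀ n : ℕ, Set (MvPolynomial (Fin (n + 1)) ℂ) → Prop,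
    ContainsHypersurfaces 𝒳 → ∀ i i' : Fin 4,
    ((∀ (n : ℕ) (S : Set (MvPolynomial (Fin (n + 1)) ℂ)), 𝒳 n S → Notion S i → Notion S i') ↔
      ∀ (N k : ℕ) (Y : Equations N k), 𝒴 N k Y → Notion (Set.range Y) i → Notion (Set.range Y) i')
  theorem3 : ∀ 𝒳 : ∀ n : ℕ, Set (MvPolynomial (Fin (n + 1)) ℂ) → Prop,
    ContainsHypersurfaces 𝒳 → ∀ i i' : Fin 4,
    ((∀ (n : ℕ) (S : Set (MvPolynomial (Fin (n + 1)) ℂ)), 𝒳 n S →
        ∀ Z : Set (MvPolynomial (Fin (n + 1)) ℂ), (∀ p ∈ Z, ∃ e, p.IsHomogeneous e) →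
          NotionOutside S Z i → NotionOutside S Z i') ↔
      ∀ (N k : ℕ) (Y : Equations N k) (J : Set (Fin (N + 1))), 𝒴 N k Y →
        NotionOutside (Set.range Y) (X '' J) i → NotionOutside (Set.range Y) (X '' J) i')

section proof

open Pool.Agent.H441.UA (FEmb vals)
open Pool.Agent.H441.DQ (dform dform_hom)
open Pool.Agent.H441.FT (IsClass exists_fin root_ne maps_lift vals_smul Match match_coord
  match_one emb_sub emb_open)
open Pool.Agent.H441.AC (emb_alg emb_alg_copies alg_match bnd_match spec_match tor_match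
  algIn_iff bndIn_iff specIn_iff torIn_iff)
open Pool.Agent.N254.SQ (OnAlgebraic OnBounded OnTori OnSpecial IsForm)

variable {n : ℕ}

/-- the embedding in the form needed here -/
theorem embeds_of {m N k : ℕ} (hm : m ≠ 0) {S Z : Set (MvPolynomial (Fin (n + 1)) ℂ)}
    {κ γ : Type} {S₀ : Finset (MvPolynomial (Fin (n + 1)) ℂ)}
    {T : κ → MvPolynomial (Fin (n + 1)) ℂ} {G : γ → MvPolynomial (Fin (n + 1)) ℂ}
    {φ : Fin (N + 1) → MvPolynomial (Fin (n + 1)) ℂ} {c : Fin k → Fin (N + 1) → ℂ}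
    {I J : Set (Fin (N + 1))}
    (hE : FEmb m (fun p : S₀ => (p : MvPolynomial (Fin (n + 1)) ℂ)) T G φ c I J)
    (hS : ∀ (Ω : Type) [Field Ω] [Algebra ℂ Ω] (x : Fin (n + 1) → Ω),
      (∀ p : S₀, aeval x (p : MvPolynomial (Fin (n + 1)) ℂ) = 0) ↔ ∀ p ∈ S, aeval x p = 0)
    (hM : Match φ Z (X '' I)) : Embeds m S Z φ (fun i => dform m (c i)) I := by
  refine ⟨hE.mono, fun x hx => ?_, fun x hx => ?_, emb_alg hE hS, ?_, fun E _ _ L f hf => ?_,
    fun L _ _ w y _ hy => emb_sub hE hS hy⟩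
  · have h1 := hS ℂ x
    exact h1.symm.trans (hE.pts ℂ (RingHom.id ℂ) x hx)
  · have h1 := emb_open hM hx
    rw [← not_iff_not]
    push Not
    refine h1.symm.trans ?_
    constructor
    · rintro ⟨_, ⟨j, hj, rfl⟩, h2⟩
      rw [eval_X] at h2
      exact ⟨j, hj, h2⟩
    · rintro ⟨j, hj, h2⟩
      exact ⟨X j, ⟨j, hj, rfl⟩, by rwa [eval_X]⟩
  · obtain ⟨e, he, h⟩ := emb_alg_copies hm hE hS hM
    refine ⟨e, he, fun E _ _ _ ζ x s y hζ hs hx hxS hyx => ?_⟩
    obtain ⟨h1, h2, h3, h4, -, -⟩ := h E ζ x s y hζ hs hx hxS hyx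
    refine ⟨h1, h2, h3, Iff.trans ?_ h4⟩
    constructor
    · rintro ⟨j, hj, h5⟩
      exact ⟨X j, ⟨j, hj, rfl⟩, by rwa [aeval_X]⟩
    · rintro ⟨_, ⟨j, hj, rfl⟩, h5⟩
      rw [aeval_X] at h5
      exact ⟨j, hj, h5⟩
  · obtain ⟨ζ, x, hζ, hxd, hx0, hxF, hfx⟩ := maps_lift hm hE (RingHom.id ℂ) hf.diff hf.ne
      (fun z i => hf.mem z _ ⟨i, rfl⟩) hf.nonconst
    have hζ0 := root_ne hm hζ
    obtain ⟨e, hsm⟩ := vals_smul hE
    refine ⟨ζ, x, hζ, ⟨hxd, hx0, fun z => (hS ℂ (x z)).1 (hxF z), fun z l hl => ?_, ?_⟩, hfx⟩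
    · obtain ⟨b, hb⟩ := hf.per z l hl
      refine hE.inj ℂ (RingHom.id ℂ) _ _ b (hx0 _) (funext fun j => ?_)
      have h2 := congrFun hb j
      rw [Pi.smul_apply, smul_eq_mul, hfx, hfx] at h2
      rw [Pi.smul_apply, smul_eq_mul]
      apply mul_left_cancel₀ (hζ0 j)
      linear_combination h2
    · obtain ⟨z₀, w₀, hnc⟩ := hf.nonconst
      exact ⟨z₀, w₀, fun b hb => hnc (b ^ e) (funext fun j => by
        rw [hfx, hb, hsm, Pi.smul_apply, Pi.smul_apply, smul_eq_mul, smul_eq_mul, hfx]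
        ring)⟩

/-- the four properties of the system -/
theorem notion_match {m N k : ℕ} (hm : m ≠ 0) {S Z : Set (MvPolynomial (Fin (n + 1)) ℂ)}
    {κ γ : Type} {S₀ : Finset (MvPolynomial (Fin (n + 1)) ℂ)}
    {T : κ → MvPolynomial (Fin (n + 1)) ℂ} {G : γ → MvPolynomial (Fin (n + 1)) ℂ}
    {φ : Fin (N + 1) → MvPolynomial (Fin (n + 1)) ℂ} {c : Fin k → Fin (N + 1) → ℂ}
    {I J : Set (Fin (N + 1))} {Z' : Set (MvPolynomial (Fin (N + 1)) ℂ)}
    (hE : FEmb m (fun p : S₀ => (p : MvPolynomial (Fin (n + 1)) ℂ)) T G φ c I J)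
    (hS : ∀ (Ω : Type) [Field Ω] [Algebra ℂ Ω] (x : Fin (n + 1) → Ω),
      (∀ p : S₀, aeval x (p : MvPolynomial (Fin (n + 1)) ℂ) = 0) ↔ ∀ p ∈ S, aeval x p = 0)
    (hM : Match φ Z Z') (i : Fin 4) :
    NotionOutside (Set.range fun i => dform m (c i)) Z' i ↔ NotionOutside S Z i := by
  fin_cases i
  · exact alg_match hm hE hS hM
  · exact bnd_match hm hE hS hM
  · exact tor_match hm hE hS hM
  · exact spec_match hm hE hS hM

theorem part_one {m : ℕ} {𝒴 : ∀ N k : ℕ, Equations N k → Prop} (h𝒴 : IsClass m 𝒴)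
    (S Z : Set (MvPolynomial (Fin (n + 1)) ℂ)) (hS : ∀ p ∈ S, ∃ e, p.IsHomogeneous e)
    (hZ : ∀ p ∈ Z, ∃ e, p.IsHomogeneous e) :
    ∃ (N k : ℕ) (Y : Equations N k) (φ : Fin (N + 1) → MvPolynomial (Fin (n + 1)) ℂ)
      (J : Set (Fin (N + 1))), 𝒴 N k Y ∧ Embeds m S Z φ Y J ∧
      (∀ i, Notion (Set.range Y) i ↔ Notion S i) ∧
      ∀ i, NotionOutside (Set.range Y) (X '' J) i ↔ NotionOutside S Z i := by
  classical
  obtain ⟨S₀, hS₀, hSS⟩ := exists_fin S
  obtain ⟨Z₀, hZ₀, hZZ⟩ := exists_fin Z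
  obtain ⟨N, k, φ, c, I, J, hY, hE⟩ := h𝒴.emb n S₀ Z₀ Empty
    (fun p : S₀ => (p : MvPolynomial (Fin (n + 1)) ℂ))
    (fun p : Z₀ => (p : MvPolynomial (Fin (n + 1)) ℂ)) (fun e : Empty => e.elim)
    (fun p => hS p (hS₀ p.2)) (fun p => hZ p (hZ₀ p.2)) (fun e => e.elim)
  have hm0 : m ≠ 0 := by
    have := h𝒴.pos
    omega
  have hM : Match φ Z (X '' I) := match_coord hE hZ fun Ω _ _ x => by
    have h1 := hZZ Ω x
    rw [← not_iff_not]
    push Not
    exact h1
  exact ⟨N, k, _, φ, I, hY, embeds_of hm0 hE hSS hM, notion_match hm0 hE hSS match_one,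
    notion_match hm0 hE hSS hM⟩

/-- the four library notions -/
def On (S : Set (MvPolynomial (Fin (n + 1)) ℂ)) (G : MvPolynomial (Fin (n + 1)) ℂ) :
    Fin 4 → Prop := ![OnAlgebraic S G, OnBounded S G, OnTori S G, OnSpecial S G]

theorem outside_iff {S Z : Set (MvPolynomial (Fin (n + 1)) ℂ)} (hZ : Z.Finite) (i : Fin 4) :
    NotionOutside S Z i ↔ ∀ p ∈ Z, On S p i := by
  fin_cases i
  · exact algIn_iff hZ
  · exact bndIn_iff hZ
  · exact torIn_iff
  · exact specIn_iff

theorem notion_iff {S : Set (MvPolynomial (Fin (n + 1)) ℂ)} (i : Fin 4) :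
    Notion S i ↔ On S 1 i := by
  have h := outside_iff (S := S) (Set.finite_singleton (1 : MvPolynomial (Fin (n + 1)) ℂ)) i
  simp only [Set.mem_singleton_iff, forall_eq] at h
  exact h

/-- smooth hypersurfaces with the same properties -/
theorem part_two {N d : ℕ} (hN : 1 ≤ N) (S : Set (MvPolynomial (Fin (N + 1)) ℂ))
    (hS : ∀ p ∈ S, ∃ e ≤ d, p.IsHomogeneous e) :
    ∃ (M e : ℕ) (A : MvPolynomial (Fin (M + 1)) ℂ), 3 ≤ M ∧ A.IsHomogeneous e ∧ Smooth A ∧
      (∀ i, On {A} 1 i ↔ On S 1 i) ∧ ∀ j, ∃ a, ∀ i, On {A} (X a) i ↔ On S (X j) i := by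
  classical
  obtain ⟨D₁, H, -⟩ := Pool.Agent.Results.MP_6f117a_ag.SmoothHypersurfacesSuffice.result
  obtain ⟨M, v, hv, H2⟩ := H N (max 3 d) hN (le_max_left _ _)
  obtain ⟨Q, hQ, hsm, -, -, -, hon, -, -⟩ := H2 (D₁ M) le_rfl S (by
    intro p hp
    obtain ⟨e, he, hpe⟩ := hS p hp
    exact ⟨e, he.trans (le_max_right _ _), hpe⟩)
  refine ⟨M, _, _, ?_, Pool.Agent.N254.SQ.power_form hQ, hsm, ?_, ?_⟩
  · -- there are at least four monomials
    have h3 : ∀ i : Fin 4, ∃ a, v a = fun j =>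
        (if j = 0 then (i : ℕ) else 0) + if j = ⟨1, by omega⟩ then max 3 d - i else 0 := by
      intro i
      apply hv.surj
      rw [Finset.sum_add_distrib]
      simp
      omega
    choose a ha using h3
    have hinj : Function.Injective a := by
      intro i i' h
      have h4 := congrFun ((ha i).symm.trans (h ▸ ha i')) 0
      simp at h4
      exact Fin.ext h4
    have := Fintype.card_le_of_injective a hinj
    simp at this
    omega
  · intro i
    obtain ⟨h1, h2, h3, h4⟩ := hon 1 ⟨0, isHomogeneous_one _ _⟩ 1 (map_one _).symm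
    fin_cases i
    · exact h1
    · exact h2
    · exact h3
    · exact h4
  · intro j
    obtain ⟨a, ha⟩ := hv.surj (fun j' => if j' = j then max 3 d else 0) (by simp)
    refine ⟨a, fun i => ?_⟩
    have hH : (X j : MvPolynomial (Fin (N + 1)) ℂ) ^ max 3 d =
        aeval (fun a => ∏ j, (X j : MvPolynomial (Fin (N + 1)) ℂ) ^ v a j)
          (X a : MvPolynomial (Fin (M + 1)) ℂ) := by
      rw [aeval_X, ha]
      have h5 : ∀ j' : Fin (N + 1), (X j' : MvPolynomial (Fin (N + 1)) ℂ) ^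
          (if j' = j then max 3 d else 0) = if j' = j then X j ^ max 3 d else 1 := by
        intro j'
        split_ifs with h
        · rw [h]
        · exact pow_zero _
      rw [Finset.prod_congr rfl fun j' _ => h5 j', Finset.prod_ite_eq' Finset.univ j]
      simp
    obtain ⟨h1, h2, h3, h4⟩ := hon (X a) ⟨1, isHomogeneous_X _ _⟩ _ hH
    obtain ⟨k1, k2, k3, k4⟩ :=
      Pool.Agent.Results.MP_6f117a_ag.SmoothHypersurfacesSuffice.four_pow (k := max 3 d)
        (by omega) S (X j)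
    fin_cases i
    · exact h1.trans k1
    · exact h2.trans k2
    · exact h3.trans k3
    · exact h4.trans k4

/-- nothing happens in `P^0` -/
theorem on_zero (S : Set (MvPolynomial (Fin (0 + 1)) ℂ)) (G : MvPolynomial (Fin (0 + 1)) ℂ)
    (i i' : Fin 4) : On S G i → On S G i' := by
  have h := Pool.Agent.Results.MP_6f117a_ag.SmoothHypersurfacesSuffice.four_zero S G
  have h1 : ∀ i : Fin 4, (On S G i ↔ OnAlgebraic S G) := by
    intro i
    fin_cases i
    · exact Iff.rfl
    · exact h.out 1 0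
    · exact h.out 2 0
    · exact h.out 3 0
  exact fun h2 => (h1 i').2 ((h1 i).1 h2)

theorem suffices_of {m : ℕ} {𝒴 : ∀ N k : ℕ, Equations N k → Prop} (h𝒴 : IsClass m 𝒴) :
    Suffices m 𝒴 := by
  refine ⟨fun _ S Z hS hZ => part_one h𝒴 S Z hS hZ, fun 𝒳 h𝒳 i i' => ⟨fun h N k Y hY => ?_,
    fun h n S hS => ?_⟩, fun 𝒳 h𝒳 i i' => ⟨fun h N k Y J hY => ?_, fun h n S hS Z hZ => ?_⟩⟩
  · rw [notion_iff, notion_iff]
    rcases Nat.eq_zero_or_pos N with hN | hN
    · subst hN
      exact on_zero _ _ i i'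
    · obtain ⟨M, e, A, hM, hA, hsm, h1, -⟩ := part_two (d := m) hN (Set.range Y) (by
        rintro _ ⟨i, rfl⟩
        exact ⟨m, le_rfl, h𝒴.hom N k Y hY i⟩)
      rw [← h1, ← h1, ← notion_iff, ← notion_iff]
      exact h M _ (h𝒳.hypersurfaces M e A hM hA hsm)
  · obtain ⟨N, k, Y, φ, J, hY, -, h1, -⟩ := part_one h𝒴 S ∅ (h𝒳.forms n S hS)
      (fun p hp => absurd hp (Set.notMem_empty p))
    rw [← h1, ← h1]
    exact h N k Y hY
  · have hJ : ((X : Fin (N + 1) → MvPolynomial (Fin (N + 1)) ℂ) '' J).Finite :=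
      (Set.toFinite J).image _
    rw [outside_iff hJ, outside_iff hJ]
    rcases Nat.eq_zero_or_pos N with hN | hN
    · subst hN
      exact fun h2 p hp => on_zero _ _ i i' (h2 p hp)
    · obtain ⟨M, e, A, hM, hA, hsm, -, h1⟩ := part_two (d := m) hN (Set.range Y) (by
        rintro _ ⟨i, rfl⟩
        exact ⟨m, le_rfl, h𝒴.hom N k Y hY i⟩)
      choose a ha using h1
      have hJ' : ((X : Fin (M + 1) → MvPolynomial (Fin (M + 1)) ℂ) '' (a '' J)).Finite :=
        ((Set.toFinite J).image _).image _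
      have h2 := h M _ (h𝒳.hypersurfaces M e A hM hA hsm) (X '' (a '' J)) (by
        rintro _ ⟨_, -, rfl⟩
        exact ⟨1, isHomogeneous_X _ _⟩)
      rw [outside_iff hJ', outside_iff hJ'] at h2
      have h3 : ∀ i : Fin 4, (∀ p ∈ (X : Fin (M + 1) → MvPolynomial (Fin (M + 1)) ℂ) '' (a '' J),
          On {A} p i) ↔ ∀ p ∈ (X : Fin (N + 1) → MvPolynomial (Fin (N + 1)) ℂ) '' J,
            On (Set.range Y) p i := by
        intro i
        constructor
        · rintro h4 _ ⟨j, hj, rfl⟩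
          exact (ha j i).1 (h4 _ ⟨a j, ⟨j, hj, rfl⟩, rfl⟩)
        · rintro h4 _ ⟨_, ⟨j, hj, rfl⟩, rfl⟩
          exact (ha j i).2 (h4 _ ⟨j, hj, rfl⟩)
      exact fun h4 => (h3 i').1 (h2 ((h3 i).2 h4))
  · obtain ⟨N, k, Y, φ, J, hY, -, -, h1⟩ := part_one h𝒴 S Z (h𝒳.forms n S hS) hZ
    rw [← h1, ← h1]
    exact h N k Y J hY

end proof

theorem result :
    (∀ m : ℕ, 2 ≤ m → ∀ D : Set ℂ, 1 ∈ D → (∀ x ∈ D, -x ∈ D) → Submodule.span ℚ D = ⊤ →
      Suffices m (Diagonal m D)) ∧
    Suffices 2 FourTerms :=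
  ⟨fun _ hm _ hD1 hD2 hD3 => suffices_of (Pool.Agent.H441.FT.isClass_diagonal hm hD1 hD2 hD3),
    suffices_of Pool.Agent.H441.FT.isClass_four⟩

end Pool.Agent.Results.MP_6f117a_ag.DiagonalSystemsSuffice
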