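import Pool.Agent.H916.Fam

/-!
# MP_6f117a_ag, Q1: families of curves over algebraically hyperbolic varieties

Let `k` be an algebraically closed field of characteristic zero and `f : X → Y` a morphism of
projective schemes over `k`, smooth or not, given by its graph in `ℙ^N × ℙ^M` (`Family`): `Y ⊂ ℙ^N`
is any closed subset and `X ⊂ Y × ℙ^M` is any closed subset. Suppose that `Y` is algebraically
hyperbolic and that all fibres of `f`, except perhaps those over a finite set `T`, have dimension at
most one (for `t` in `T` it is supposed that the equivalence holds for the fibre `X_t`).

Then the following are equivalent:

* `X` is algebraically hyperbolic: `deg φ^* O(1, 1) ≤ α g(C)` for all curves `C` and `φ : C → X`;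
* `X` is bounded on curves: for every curve `C` the degrees of the morphisms `C → X` are bounded;
* every morphism from a curve of genus at most one to `X` is constant (this holds if `X` is
  groupless);
* every irreducible curve in `X` has geometric genus at least two, that is, it is of general type
  (this holds if all subvarieties of `X` are of general type).

The proof: let `B0 ⊂ B` be coordinate rings of `f(Z) ⊂ Y` and `Z ⊂ X`, where `Z` is irreducible. The
relative height inequality `deg φ^* O(0, 1) ≤ A (max (2 g - 2) 0 + deg φ^* O(1, 0))` for the maps
`φ : C → Z`, outside a proper closed subset, is proved in an ultraproduct of counterexamples with a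
vector field with few poles and no zeros: the functions of small degree form a relatively
algebraically closed field `S` which is stable under the vector field `D`, and the generic point of
`Z` gives a curve over `S` of genus at least two, with function field `M`, and a point of it which is
not defined over `S`. By interpolation `D` maps `M` into a finite extension of `M` and it is regular
at all places, so the pluricanonical forms evaluated at the point give a horizontal point, which
is impossible. If the genus is at most one the generic fibre specializes to maps from curves of genus
one to the fibres over closed points.
-/

set_option autoImplicit false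

namespace Pool.Agent.Results.MP_6f117a_ag.FamiliesOfCurves

open Pool.Agent.H916

/-- **Families of curves over algebraically hyperbolic varieties.** -/
theorem result {k : Type} [Field k] [IsAlgClosed k] [CharZero k] {N M : ℕ} (X : Family k N M)
    (hY : X.base.AlgHyp) (T : Set (Fin (N + 1) → k)) (hT : T.Finite)
    (hdim : ∀ c : Fin (N + 1) → k, X.base.Pt c → (∀ t ∈ T, ∀ a : k, c ≠ fun l => a * t l) →
      (X.fibre c).DimLE 1)
    (hexc : ∀ t ∈ T, X.base.Pt t → (X.fibre t).NoLowGenus → (X.fibre t).AlgHyp) :
    [X.AlgHyp, X.Bounded, X.NoLowGenus, X.CurvesGeneral].TFAE :=
  X.tfae hY T hT hdim hexc

end Pool.Agent.Results.MP_6f117a_ag.FamiliesOfCurves
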