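import Pool.Agent.H918.J.Main

/-!
# The notions of hyperbolicity for surfaces fibred over an elliptic curve

Let `X = {F = 0}` be an irreducible complex projective surface of general type (it may be singular),
with the generic point `y`, and let `α` be a holomorphic map from `X` to an elliptic curve `ℂ / Λ` which
is given by forms `A` (`WForms`: the composition of `α` with the embedding by `(1 : ℘ : ℘')`), such that
`X` has, for a finite set `B` of points of the elliptic curve, a semistable reduction which is
unramified outside of the fibres over `B` (`HasReduction`; by the theorems of Deligne and Mumford and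
of Arakelov all smooth projective surfaces of general type with a holomorphic map with connected
fibres to an elliptic curve satisfy this), and a form `H` which is not zero on `X` is zero on the
fibres over `B`.

**Theorem.** The following conditions are equivalent:

(1) `X` is algebraically hyperbolic: there is `a` such that `deg f^* O(1) ≤ a g(C)` for all morphisms
    `f : C → X` from smooth projective curves (`AlgHyp`);
(2) for every smooth projective curve `C` the degrees of the morphisms `C → X` are bounded;
(3) all morphisms from curves of genus at most one to `X` are constant (`NoLowGenus`);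
(3') all meromorphic maps from an affine space `ℂ ^ g` to `X` are constant (`MerIn`), so all morphisms
    from connected algebraic groups to `X` are constant;
(4) all closed subvarieties of `X` of dimension at least one are of general type;
(5) all holomorphic maps from the complex plane to `X` are constant.

Known before: (1) => (2) => (3) for all varieties, and the equivalence of (2), (3), (4) for surfaces.
The implications (3) => (1) and (3) => (5) are new for these surfaces. The bound of the degrees comes
from the theorem of `MP_308c18_ag.SurfacesOverEllipticCurves` (if the degree of `α ∘ f` is large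
compared with the genus, then there are large discs in `X` in the direction of the elliptic curve,
which is impossible because of the rigidity of the semistable reduction) and from the height inequality
for families of curves, and the statement on entire curves comes from
`MP_160ed4_ag.FibredSpecialSets`.
-/

set_option autoImplicit false
set_option linter.overlappingInstances false

open FF Pool.Agent.W603.LV Pool.Agent.W603.PV Pool.Agent.W602.GT Pool.Agent.N154.GG
open Pool.Agent.H918.SS (ProjVariety HasReduction)
open Pool.Agent.H918.SP (MerIn)
open Pool.Agent.H918.PF (WForms)
open Pool.Agent.H918.AI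

namespace Pool.Agent.Results.MP_6f117a_ag.FibredFourNotions

/-- **The notions of hyperbolicity for surfaces fibred over an elliptic curve.** See the explanation at
the beginning of the file. -/
theorem result (n : ℕ) (ι : Type) (F : ι → MvPolynomial (Fin (n + 1)) ℂ) (K : Type) [Field K]
    [Algebra ℂ K] (y : Fin (n + 1) → K) (Λ : PeriodPair)
    (α : (Fin (n + 1) → ℂ) → ℂ ⧸ Λ.lattice) (A : Fin 3 → MvPolynomial (Fin (n + 1)) ℂ)
    (B : Set (ℂ ⧸ Λ.lattice)) (H : MvPolynomial (Fin (n + 1)) ℂ)
    (hX : ProjVariety F 2 y) (hK : GeneralType ℂ K 2)
    (hα : HolToTorus (Cone F) Λ α) (hA : WForms F Λ α A) (h0 : val y (A 0) ≠ 0)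
    (hB : B.Finite) (hR : HasReduction F α B) (hH : IsForm H) (hy : val y H ≠ 0)
    (hHB : ∀ u ∈ Cone F, α u ∈ B → val u H = 0) :
    [(zeroSet F hX.form).AlgHyp,
      ∀ (L : Type) [Field L] [Algebra ℂ L] [IsFF ℂ L], ∃ b : ℝ, ∀ x : Fin (n + 1) → L,
        (zeroSet F hX.form).Pt x → (pht ℂ x : ℝ) ≤ b,
      (zeroSet F hX.form).NoLowGenus,
      ∀ (g : ℕ) (h : (Fin g → ℂ) → Fin (n + 1) → ℂ), ¬ MerIn F h,
      ∀ (K' : Type) [Field K'] [Algebra ℂ K'] (w : ℕ) (v : Fin (n + 1) → K'), 1 ≤ w →
        SubVar F K' w v → GeneralType ℂ K' w,
      ∀ f, HolIn F f → ∀ z w, f z = f w].TFAE :=
  tfae_surface hX hK hα hA h0 hB hR hH hy hHB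

end Pool.Agent.Results.MP_6f117a_ag.FibredFourNotions
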