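import Mathlib
import Pool.Agent.H917.G.W5

/-!
MP_6f117a_ag, Q1: the equivalence of the four algebraic notions of hyperbolicity, for projective
varieties such that some symmetric power of the cotangent bundle is generated by global sections, and
for all their closed subsets.
-/

set_option autoImplicit false

namespace Pool.Agent.Results.MP_6f117a_ag.GenPowersFourNotions

open MvPolynomial FF Pool.Agent.H917
open Pool.Agent.W602.GT (GeneralType)

/-- Let `X` be the projective variety with the homogeneous ideal `p`, such that the `m`-th symmetric
power of the cotangent sheaf of `X` is generated by global sections, for some `m ≥ 1`. Let `V` be a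
closed algebraic subset of `X` (such as `X` itself), with the homogeneous ideal `q`. The following
are equivalent: (1) `V` is algebraically hyperbolic, that is `deg f^* O(1) ≤ α g` for all morphisms
`f` from smooth projective curves of genus `g` to `V`; (2) `V` is bounded (for maps from curves): for
every smooth projective curve `C` the morphisms from `C` to `V` have bounded degree; (3) `V` is
groupless; (4) every integral closed subvariety of `V` is of general type. -/
theorem result {n : ℕ} (p : Ideal (MvPolynomial (Fin (n + 1)) ℂ)) {m : ℕ} (hm : 1 ≤ m)
    (hg : Generated p m) (q : Ideal (MvPolynomial (Fin (n + 1)) ℂ))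
    (hq : ∀ H ∈ q, ∀ d, homogeneousComponent d H ∈ q) (hpq : p ≤ q) :
    List.TFAE [GenusBound q, CurveBounded q, Groupless q,
      ∀ (K : Type) [Field K] [Algebra ℂ K] (w : ℕ) (y : Fin (n + 1) → K),
        SubVar q K w y → GeneralType ℂ K w] := by
  obtain ⟨N, s, hs⟩ := hg
  have hs' : Gens p m s := ⟨hs⟩
  exact tfae_four hq (hs'.res hpq) hm

end Pool.Agent.Results.MP_6f117a_ag.GenPowersFourNotions
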